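import Pool.Agent.TH997.US.Sem

set_option autoImplicit false

/-!
# The density of the complement of `S` tends to zero
-/

namespace Pool.Agent.Helper99.US

open Polynomial Finset Pool.Agent.H692R2.USS Pool.Agent.TH997.US
open scoped Classical

theorem goodPair_congr {k p n n' b : ℕ} (h1 : n ≡ n' [MOD p - 1]) (h2 : n ≡ n' [MOD p])
    (h : GoodPair k p n b) : GoodPair k p n' b := by
  obtain ⟨hp, hs, hl, hb, hg⟩ := h
  refine ⟨hp, hs, hl, hb.trans h1, ?_⟩
  intro f hf hd hc hdiv
  apply hg f hf hd hc
  have h3 : (p : ℤ) ∣ (n : ℤ) - n' := Nat.modEq_iff_dvd.1 h2.symm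
  have h4 : (n : ℤ) - n' ∣ f.eval (n : ℤ) - f.eval (n' : ℤ) := f.sub_dvd_eval_sub _ _
  have h5 := dvd_add (h3.trans h4) hdiv
  simpa using h5

theorem good_congr {i k n n' : ℕ} (h : n ≡ n' [MOD i.factorial]) (hg : Good i k n) :
    Good i k n' := by
  obtain ⟨B, hB, hp⟩ := hg
  refine ⟨B, hB, fun b hb => ?_⟩
  obtain ⟨p, hpi, hgp⟩ := hp b hb
  have hpp := hgp.1
  refine ⟨p, hpi, goodPair_congr (h.of_dvd ?_) (h.of_dvd ?_) hgp⟩
  · exact Nat.dvd_factorial (by have := hpp.two_le; omega) (by omega)
  · exact Nat.dvd_factorial hpp.pos hpi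

theorem good_periodic (i k : ℕ) :
    Function.Periodic (fun n => ¬ Good i k n) i.factorial := by
  intro n
  have h1 : n + i.factorial ≡ n [MOD i.factorial] := by simp [Nat.ModEq]
  exact propext ⟨fun h hg => h (good_congr h1.symm hg), fun h hg => h (good_congr h1 hg)⟩

theorem card_blocks (i k a m : ℕ) :
    ((Ico a (a + m * i.factorial)).filter (fun n => ¬ Good i k n)).card ≤
      m * ((range i.factorial).filter (fun n => ¬ Good i k n)).card := by
  induction m with
  | zero => simp
  | succ m ih =>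
    have h1 : Ico a (a + (m + 1) * i.factorial) ⊆ Ico a (a + m * i.factorial) ∪
        Ico (a + m * i.factorial) (a + m * i.factorial + i.factorial) := by
      intro x hx
      rw [mem_union, mem_Ico, mem_Ico]
      rw [mem_Ico, add_mul, one_mul] at hx
      omega
    have h2 := Nat.filter_Ico_card_eq_of_periodic (a + m * i.factorial) i.factorial
      (fun n => ¬ Good i k n) (good_periodic i k)
    rw [Nat.count_eq_card_filter_range] at h2
    calc ((Ico a (a + (m + 1) * i.factorial)).filter (fun n => ¬ Good i k n)).card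
        ≤ ((Ico a (a + m * i.factorial) ∪
        Ico (a + m * i.factorial) (a + m * i.factorial + i.factorial)).filter
          (fun n => ¬ Good i k n)).card := card_le_card (filter_subset_filter _ h1)
      _ ≤ ((Ico a (a + m * i.factorial)).filter (fun n => ¬ Good i k n)).card +
          ((Ico (a + m * i.factorial) (a + m * i.factorial + i.factorial)).filter
            (fun n => ¬ Good i k n)).card := by
          rw [filter_union]
          exact card_union_le _ _
      _ ≤ _ := by
          rw [h2, add_mul, one_mul]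
          exact Nat.add_le_add_right ih _

theorem count_le (i k a L : ℕ)
    (h : (k + 1) * ((range i.factorial).filter (fun n => ¬ Good i k n)).card ≤ i.factorial) :
    (k + 1) * ((Ico a (a + L)).filter (fun n => ¬ Good i k n)).card ≤ L + i.factorial := by
  have hF : 0 < i.factorial := i.factorial_pos
  have h1 : L ≤ (L / i.factorial + 1) * i.factorial := by
    rw [add_mul, one_mul]
    have h2 := Nat.div_add_mod L i.factorial
    have h3 := Nat.mod_lt L hF
    rw [mul_comm] at h2
    omega
  have h2 : ((Ico a (a + L)).filter (fun n => ¬ Good i k n)).card ≤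
      (L / i.factorial + 1) * ((range i.factorial).filter (fun n => ¬ Good i k n)).card := by
    refine (card_le_card (filter_subset_filter _ ?_)).trans (card_blocks i k a _)
    exact Ico_subset_Ico_right (by omega)
  calc (k + 1) * ((Ico a (a + L)).filter (fun n => ¬ Good i k n)).card
      ≤ (k + 1) * ((L / i.factorial + 1) *
        ((range i.factorial).filter (fun n => ¬ Good i k n)).card) := Nat.mul_le_mul_left _ h2
    _ = (L / i.factorial + 1) *
        ((k + 1) * ((range i.factorial).filter (fun n => ¬ Good i k n)).card) := by ring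
    _ ≤ (L / i.factorial + 1) * i.factorial := Nat.mul_le_mul_left _ h
    _ ≤ L + i.factorial := by
        rw [add_mul, one_mul]
        exact Nat.add_le_add_right (Nat.div_mul_le_self _ _) _

theorem iSeq_spec (hG : GoodDensity) (k : ℕ) :
    (k + 1) * ((range (iSeq k).factorial).filter (fun n => ¬ Good (iSeq k) k n)).card ≤
      (iSeq k).factorial := by
  have hne : {i : ℕ | (k + 1) * ((Finset.range i.factorial).filter
      (fun n => ¬ Good i k n)).card ≤ i.factorial}.Nonempty := by
    obtain ⟨i0, hi0⟩ := hG k (1 / ((k : ℝ) + 1)) (by positivity)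
    refine ⟨i0, ?_⟩
    have h1 := hi0 i0 le_rfl
    show (k + 1) * ((Finset.range i0.factorial).filter
      (fun n => ¬ Good i0 k n)).card ≤ i0.factorial
    have h2 : (0 : ℝ) < (k : ℝ) + 1 := by positivity
    rw [div_mul_eq_mul_div, one_mul, le_div_iff₀ h2] at h1
    have h3 : (((k + 1) * ((Finset.range i0.factorial).filter
      (fun n => ¬ Good i0 k n)).card : ℕ) : ℝ) ≤ (i0.factorial : ℝ) := by
      push_cast
      linarith
    exact_mod_cast h3
  exact Nat.sInf_mem hne

theorem NSeq_strictMono : StrictMono NSeq := strictMono_nat_of_lt_succ NSeq_succ_lt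

theorem lev_eq {k n : ℕ} (h1 : NSeq k ≤ n) (h2 : n < NSeq (k + 1)) : lev n = k := by
  refine le_antisymm ?_ (le_lev h1)
  have h3 : NSeq (lev n) ≤ n := by
    have h4 : NSeq 0 ≤ n := Nat.zero_le _
    exact Nat.findGreatest_spec (P := fun k => NSeq k ≤ n) (Nat.zero_le n) h4
  have h5 := NSeq_strictMono.lt_iff_lt.1 (h3.trans_lt h2)
  omega

theorem bad_le (hG : GoodDensity) {k N : ℕ} (h1 : NSeq (k + 1) ≤ N) (h2 : N < NSeq (k + 2)) :
    (k + 1) * ((range N).filter (fun n => n ∉ S)).card ≤ 2 * N := by
  have hsub : (range N).filter (fun n => n ∉ S) ⊆ (range (NSeq k)) ∪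
      ((Ico (NSeq k) (NSeq k + (NSeq (k + 1) - NSeq k))).filter
        (fun n => ¬ Good (iSeq k) k n) ∪
      (Ico (NSeq (k + 1)) (NSeq (k + 1) + (N - NSeq (k + 1)))).filter
        (fun n => ¬ Good (iSeq (k + 1)) (k + 1) n)) := by
    intro n hn
    rw [mem_filter, mem_range] at hn
    obtain ⟨hn, hS⟩ := hn
    rw [mem_union, mem_union, mem_filter, mem_filter, mem_Ico, mem_Ico, mem_range]
    have h3 := NSeq_succ_lt k
    by_cases c1 : n < NSeq k
    · exact Or.inl c1
    · by_cases c2 : n < NSeq (k + 1)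
      · refine Or.inr (Or.inl ⟨⟨by omega, by omega⟩, ?_⟩)
        intro hg
        apply hS
        show Good (iSeq (lev n)) (lev n) n
        rw [lev_eq (by omega) c2]
        exact hg
      · refine Or.inr (Or.inr ⟨⟨by omega, by omega⟩, ?_⟩)
        intro hg
        apply hS
        show Good (iSeq (lev n)) (lev n) n
        have h2' : n < NSeq (k + 1 + 1) := hn.trans h2
        rw [lev_eq (k := k + 1) (by omega) h2']
        exact hg
  have h3 := (card_le_card hsub).trans ((card_union_le _ _).trans
    (Nat.add_le_add_left (card_union_le _ _) _))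
  rw [card_range] at h3
  have h4 := count_le (iSeq k) k (NSeq k) (NSeq (k + 1) - NSeq k) (iSeq_spec hG k)
  have h5 := count_le (iSeq (k + 1)) (k + 1) (NSeq (k + 1)) (N - NSeq (k + 1))
    (iSeq_spec hG (k + 1))
  have h6 : NSeq (k + 1) = (k + 1) * (NSeq k + (iSeq k).factorial +
    (iSeq (k + 1)).factorial + 1) := rfl
  set A := ((Ico (NSeq k) (NSeq k + (NSeq (k + 1) - NSeq k))).filter
        (fun n => ¬ Good (iSeq k) k n)).card
  set B := ((Ico (NSeq (k + 1)) (NSeq (k + 1) + (N - NSeq (k + 1)))).filter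
        (fun n => ¬ Good (iSeq (k + 1)) (k + 1) n)).card
  set U := ((range N).filter (fun n => n ∉ S)).card
  have h7 := NSeq_succ_lt k
  have h8 : (k + 1) * U ≤ (k + 1) * NSeq k + (k + 1) * A + (k + 1) * B := by
    have := Nat.mul_le_mul_left (k + 1) h3
    calc (k + 1) * U ≤ (k + 1) * (NSeq k + (A + B)) := this
      _ = _ := by ring
  have h9 : (k + 1) * B ≤ (k + 1 + 1) * B := Nat.mul_le_mul_right _ (by omega)
  have h10 : (k + 1) * NSeq k + (iSeq k).factorial + (iSeq (k + 1)).factorial ≤
      NSeq (k + 1) := by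
    rw [h6]
    have e1 : (k + 1) * (NSeq k + (iSeq k).factorial + (iSeq (k + 1)).factorial + 1) =
      (k + 1) * NSeq k + (k + 1) * (iSeq k).factorial + (k + 1) * (iSeq (k + 1)).factorial +
        (k + 1) := by ring
    rw [e1]
    have e2 : 1 * (iSeq k).factorial ≤ (k + 1) * (iSeq k).factorial :=
      Nat.mul_le_mul_right _ (by omega)
    have e3 : 1 * (iSeq (k + 1)).factorial ≤ (k + 1) * (iSeq (k + 1)).factorial :=
      Nat.mul_le_mul_right _ (by omega)
    omega
  omega

/-- **Piece B2.** -/
theorem t_B2 : Pool.Agent.TH997.US.B2 := by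
  intro hG
  rw [Metric.tendsto_atTop]
  intro ε hε
  obtain ⟨K, hK⟩ := exists_nat_gt (2 / ε)
  have hK0 : 0 < (K : ℝ) := lt_trans (by positivity) hK
  have hK1 : 0 < K := by exact_mod_cast hK0
  refine ⟨NSeq K, fun N hN => ?_⟩
  have hN0 : 0 < N := lt_of_lt_of_le (lt_of_lt_of_le hK1 (le_NSeq K)) hN
  have hN0' : (0 : ℝ) < N := by exact_mod_cast hN0
  have hlev : K ≤ lev N := le_lev hN
  obtain ⟨k, hk⟩ : ∃ k, lev N = k + 1 := ⟨lev N - 1, by omega⟩
  have h3 : NSeq (k + 1) ≤ N := by
    rw [← hk]
    have h4 : NSeq 0 ≤ N := Nat.zero_le _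
    exact Nat.findGreatest_spec (P := fun k => NSeq k ≤ N) (Nat.zero_le N) h4
  have h4 : N < NSeq (k + 2) := by
    by_contra hcon
    have := le_lev (not_lt.1 hcon)
    omega
  have h5 := bad_le hG h3 h4
  have h6 : ((k : ℝ) + 1) * (((range N).filter (fun n => n ∉ S)).card : ℝ) ≤ 2 * N := by
    exact_mod_cast h5
  have h7 : (K : ℝ) ≤ (k : ℝ) + 1 := by
    have : K ≤ k + 1 := by omega
    exact_mod_cast this
  rw [Real.dist_eq, sub_zero, abs_of_nonneg (by positivity), div_lt_iff₀ hN0']
  have h8 : 2 < ε * K := by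
    rw [div_lt_iff₀ hε] at hK
    linarith
  have h9 : (0 : ℝ) ≤ (((range N).filter (fun n => n ∉ S)).card : ℝ) := by positivity
  have h10 : (K : ℝ) * (((range N).filter (fun n => n ∉ S)).card : ℝ) ≤ 2 * N :=
    (mul_le_mul_of_nonneg_right h7 h9).trans h6
  have h11 : 2 * (N : ℝ) < (ε * K) * N := mul_lt_mul_of_pos_right h8 hN0'
  have h12 : (K : ℝ) * (((range N).filter (fun n => n ∉ S)).card : ℝ) < K * (ε * N) := by
    calc _ ≤ 2 * (N : ℝ) := h10
      _ < (ε * K) * N := h11
      _ = _ := by ring
  exact lt_of_mul_lt_mul_left h12 hK0.le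

end Pool.Agent.Helper99.US
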